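import Pool.Agent.MP_84d951_al.Stm

/-! The diagonal argument. -/

set_option autoImplicit false

namespace Pool.Agent.MP_84d951_al

namespace DiagA

/-- Product of the constants of a word. -/
def gp {G : Type} [Group G] : List (G ⊕ Fin 2 × Bool) → G
  | [] => 1
  | Sum.inl c :: l => c * gp l
  | Sum.inr _ :: l => gp l

/-- Elements fixing the complement of a set. -/
def sp (G : Type) {X : Type} [Group G] [MulAction G X] (W : Set X) : Subgroup G where
  carrier := {a | ∀ p : X, p ∉ W → a • p = p}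
  one_mem' := fun p _ => one_smul G p
  mul_mem' := fun {a b} ha hb p hp => by rw [mul_smul, hb p hp, ha p hp]
  inv_mem' := fun {a} ha p hp => by rw [inv_smul_eq_iff, ha p hp]

theorem pres {G X : Type} [Group G] [MulAction G X] {W : Set X} {a : G} (ha : a ∈ sp G W) {q : X}
    (hq : q ∈ W) : a • q ∈ W := by
  by_contra h
  have h1 : a • a • q = a • q := ha _ h
  rw [smul_left_cancel_iff] at h1
  exact h (h1.symm ▸ hq)

theorem shrink {G X : Type} [Group G] [TopologicalSpace X] [T2Space X] [MulAction G X]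
    [ContinuousConstSMul G X] (V : Set X) (hV : IsOpen V) (hn : V.Nonempty) (E : List G) :
    ∃ W : Set X, IsOpen W ∧ W.Nonempty ∧ W ⊆ V ∧
      ∀ e ∈ E, (∀ q ∈ W, e • q = q) ∨ ∀ q ∈ W, e • q ∉ W := by
  induction E with
  | nil => exact ⟨V, hV, hn, subset_rfl, fun e he => absurd he List.not_mem_nil⟩
  | cons e E ih =>
    obtain ⟨W, h1, h2, h3, h4⟩ := ih
    by_cases h : ∀ q ∈ W, e • q = q
    · refine ⟨W, h1, h2, h3, fun e' he' => ?_⟩
      rcases List.mem_cons.1 he' with rfl | he'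
      · exact Or.inl h
      · exact h4 e' he'
    · obtain ⟨p, hp⟩ := not_forall.1 h
      obtain ⟨hpW, hpe⟩ := Classical.not_imp.1 hp
      obtain ⟨U₂, U₁, o2, o1, m2, m1, hd⟩ := t2_separation hpe
      refine ⟨W ∩ (U₁ ∩ (fun q => e • q) ⁻¹' U₂),
        h1.inter (o1.inter (o2.preimage (continuous_const_smul e))), ⟨p, hpW, m1, m2⟩,
        fun q hq => h3 hq.1, fun e' he' => ?_⟩
      rcases List.mem_cons.1 he' with rfl | he'
      · exact Or.inr fun q hq hq' => Set.disjoint_left.1 hd hq.2.2 hq'.2.1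
      · rcases h4 e' he' with h5 | h5
        · exact Or.inl fun q hq => h5 q hq.1
        · exact Or.inr fun q hq hq' => h5 q hq.1 hq'.1

theorem spread {G X : Type} [Group G] [MulAction G X] {W : Set X} {a : G} (ha : a ∈ sp G W)
    (D : List G)
    (hD : ∀ g ∈ D, ∀ g' ∈ D, (∀ q ∈ W, (g'⁻¹ * g) • q = q) ∨ ∀ q ∈ W, (g'⁻¹ * g) • q ∉ W) :
    ∃ y : G, (∀ g ∈ D, ∀ q ∈ W, y • g • q = g • a • q) ∧
      ∀ p : X, (∀ g ∈ D, g⁻¹ • p ∉ W) → y • p = p := by
  induction D with
  | nil => exact ⟨1, fun g hg => absurd hg List.not_mem_nil, fun p _ => one_smul G p⟩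
  | cons g D ih =>
    obtain ⟨y, h1, h2⟩ := ih fun b hb b' hb' =>
      hD b (List.mem_cons_of_mem _ hb) b' (List.mem_cons_of_mem _ hb')
    by_cases h : ∃ g' ∈ D, ∀ q ∈ W, (g'⁻¹ * g) • q = q
    · obtain ⟨g', hg', h3⟩ := h
      have h4 : ∀ q ∈ W, g • q = g' • q := fun q hq => by
        have h5 := h3 q hq
        rwa [mul_smul, inv_smul_eq_iff] at h5
      refine ⟨y, fun b hb q hq => ?_, fun p hp => h2 p fun b hb => hp b (List.mem_cons_of_mem _ hb)⟩
      rcases List.mem_cons.1 hb with rfl | hb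
      · rw [h4 q hq, h1 g' hg' q hq, h4 _ (pres ha hq)]
      · exact h1 b hb q hq
    · have h3 : ∀ g' ∈ D, ∀ q ∈ W, g'⁻¹ • g • q ∉ W := fun g' hg' q hq => by
        rcases hD g List.mem_cons_self g' (List.mem_cons_of_mem _ hg') with h4 | h4
        · exact absurd ⟨g', hg', h4⟩ h
        · rw [← mul_smul]
          exact h4 q hq
      refine ⟨y * (g * a * g⁻¹), fun b hb q hq => ?_, fun p hp => ?_⟩
      · rcases List.mem_cons.1 hb with rfl | hb
        · rw [mul_smul, mul_smul, mul_smul, inv_smul_smul]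
          exact h2 _ fun g' hg' => h3 g' hg' _ (pres ha hq)
        · have h4 : g⁻¹ • b • q ∉ W := fun h5 => h3 b hb _ h5 (by
            rw [smul_inv_smul, inv_smul_smul]
            exact hq)
          rw [mul_smul, mul_smul, mul_smul, ha _ h4, smul_inv_smul]
          exact h1 b hb q hq
      · rw [mul_smul, mul_smul, mul_smul, ha _ (hp g List.mem_cons_self), smul_inv_smul]
        exact h2 p fun b hb => hp b (List.mem_cons_of_mem _ hb)

theorem lift_mem {G X : Type} [Group G] [MulAction G X] {W : Set X} {x : Fin 2 → G}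
    (hx : ∀ i, x i ∈ sp G W) (v : FreeGroup (Fin 2)) : FreeGroup.lift x v ∈ sp G W := by
  induction v using FreeGroup.induction_on with
  | C1 => rw [map_one]; exact one_mem _
  | of i => rw [FreeGroup.lift_apply_of]; exact hx i
  | inv_of i h => rw [map_inv]; exact inv_mem h
  | mul u v hu hv => rw [map_mul]; exact mul_mem hu hv

theorem ct_inl {G : Type} (c : G) (l : List (G ⊕ Fin 2 × Bool)) : ct (Sum.inl c :: l) = ct l := rfl

theorem lift_ct_inr {G : Type} [Group G] (x : Fin 2 → G) (z : Fin 2 × Bool)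
    (l : List (G ⊕ Fin 2 × Bool)) : FreeGroup.lift x (ct (Sum.inr z :: l)) =
      cond z.2 (x z.1) (x z.1)⁻¹ * FreeGroup.lift x (ct l) := by
  have h : ct (Sum.inr z :: l) = FreeGroup.mk (z :: l.filterMap Sum.getRight?) := rfl
  rw [h]
  unfold ct
  rw [FreeGroup.lift_mk, FreeGroup.lift_mk, List.map_cons, List.prod_cons]

theorem ev_cons {G : Type} [Group G] (x : Fin 2 → G) (t : G ⊕ Fin 2 × Bool)
    (l : List (G ⊕ Fin 2 × Bool)) :
    ev x (t :: l) = Sum.elim id (fun z => cond z.2 (x z.1) (x z.1)⁻¹) t * ev x l := by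
  unfold ev
  rw [List.map_cons, List.prod_cons]

theorem ev_eq {G X : Type} [Group G] [MulAction G X] {W : Set X} {x₀ x : Fin 2 → G}
    (hx : ∀ i, x₀ i ∈ sp G W) (l : List (G ⊕ Fin 2 × Bool))
    (h : ∀ t ∈ l.tails, ∀ i, ∀ q ∈ W, x i • gp t • q = gp t • x₀ i • q) :
    ∀ q ∈ W, ev x l • q = gp l • FreeGroup.lift x₀ (ct l) • q := by
  induction l with
  | nil =>
    intro q _
    have h1 : ev x [] = 1 := rfl
    have h2 : (gp [] : G) = 1 := rfl
    have h3 : ct ([] : List (G ⊕ Fin 2 × Bool)) = 1 := rfl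
    rw [h1, h2, h3, map_one, one_smul, one_smul]
  | cons t l ih =>
    intro q hq
    have h0 : ∀ s ∈ l.tails, ∀ i, ∀ q ∈ W, x i • gp s • q = gp s • x₀ i • q := fun s hs =>
      h s (by rw [List.tails_cons]; exact List.mem_cons_of_mem _ hs)
    have h1 := ih h0 q hq
    have h2 := h0 l ((List.mem_tails _ _).2 List.suffix_rfl)
    rw [ev_cons, mul_smul, h1]
    rcases t with c | ⟨i, b⟩
    · rw [ct_inl, gp, mul_smul]
      rfl
    · have h3 : FreeGroup.lift x₀ (ct l) • q ∈ W := pres (lift_mem hx _) hq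
      rw [lift_ct_inr, gp, mul_smul]
      cases b
      · have h4 := h2 i _ (pres (inv_mem (hx i)) h3)
        rw [smul_inv_smul] at h4
        exact inv_smul_eq_iff.2 h4.symm
      · exact h2 i _ h3

end DiagA

open DiagA in
theorem diag (h : Law) : Diag := by
  intro G X _ _ _ _ _ V hV hn hM l hl
  obtain ⟨W, o, n, s, hW⟩ := shrink V hV hn
    ((1 :: l.tails.map gp).flatMap fun g => (1 :: l.tails.map gp).map fun g' => g'⁻¹ * g)
  have hD : ∀ g ∈ (1 :: l.tails.map gp : List G), ∀ g' ∈ (1 :: l.tails.map gp : List G),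
      (∀ q ∈ W, (g'⁻¹ * g) • q = q) ∨ ∀ q ∈ W, (g'⁻¹ * g) • q ∉ W := fun g hg g' hg' =>
    hW _ (List.mem_flatMap.2 ⟨g, hg, List.mem_map.2 ⟨g', hg', rfl⟩⟩)
  obtain ⟨x₀, hx, p, hp⟩ := h G X W o n (fun U h1 h2 h3 => hM U h1 h2 (h3.trans s)) (ct l) hl
  have hx' : ∀ i, x₀ i ∈ sp G W := hx
  have hv := lift_mem hx' (ct l)
  have hpW : p ∈ W := by
    by_contra h1
    exact hp (hv p h1)
  choose x hx1 _ using fun i => spread (hx' i) _ hD
  have hm : ∀ t ∈ l.tails, gp t ∈ (1 :: l.tails.map gp : List G) := fun t ht =>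
    List.mem_cons_of_mem _ (List.mem_map.2 ⟨t, ht, rfl⟩)
  refine ⟨x, p, ?_⟩
  rw [ev_eq hx' l (fun t ht i => hx1 i _ (hm t ht)) p hpW]
  have h1 := hD _ (hm l ((List.mem_tails _ _).2 List.suffix_rfl)) 1 List.mem_cons_self
  rw [inv_one, one_mul] at h1
  rcases h1 with h1 | h1
  · rw [h1 _ (pres hv hpW)]
    exact hp
  · intro h2
    exact h1 _ (pres hv hpW) (h2.symm ▸ hpW)

end Pool.Agent.MP_84d951_al
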