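import Mathlib

set_option autoImplicit false

namespace Pool.Agent.MP_84d951_al

/-- Value of a word with constants. -/
def ev {G : Type} [Group G] (x : Fin 2 → G) (l : List (G ⊕ Fin 2 × Bool)) : G :=
  (l.map (Sum.elim id fun z => cond z.2 (x z.1) (x z.1)⁻¹)).prod

/-- Content of a word with constants. -/
def ct {G : Type} (l : List (G ⊕ Fin 2 × Bool)) : FreeGroup (Fin 2) :=
  FreeGroup.mk (l.filterMap Sum.getRight?)

/-- Every nonempty open subset of `V` contains the support of an element acting nontrivially. -/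
def Micro (G : Type) {X : Type} [Group G] [TopologicalSpace X] [MulAction G X] (V : Set X) : Prop :=
  ∀ U : Set X, IsOpen U → U.Nonempty → U ⊆ V →
    ∃ g : G, (∃ p : X, g • p ≠ p) ∧ ∀ p : X, p ∉ U → g • p = p

/-- Retractions onto the free group of rank two separate points. -/
def Retr : Prop :=
  ∀ (d : ℕ) (w : FreeGroup (Fin d ⊕ Fin 2)), w ≠ 1 →
    ∃ u : Fin d → FreeGroup (Fin 2), FreeGroup.lift (Sum.elim u FreeGroup.of) w ≠ 1

/-- Rigid stabilisers satisfy no law. -/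
def Law : Prop :=
  ∀ (G X : Type) [Group G] [TopologicalSpace X] [T2Space X] [MulAction G X]
    [ContinuousConstSMul G X] (V : Set X), IsOpen V → V.Nonempty → Micro G V →
    ∀ v : FreeGroup (Fin 2), v ≠ 1 → ∃ x : Fin 2 → G, (∀ (i : Fin 2) (p : X), p ∉ V → x i • p = p) ∧
      ∃ p : X, FreeGroup.lift x v • p ≠ p

/-- The diagonal argument. -/
def Diag : Prop :=
  ∀ (G X : Type) [Group G] [TopologicalSpace X] [T2Space X] [MulAction G X]
    [ContinuousConstSMul G X] (V : Set X), IsOpen V → V.Nonempty → Micro G V →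
    ∀ l : List (G ⊕ Fin 2 × Bool), ct l ≠ 1 → ∃ (x : Fin 2 → G) (p : X), ev x l • p ≠ p

/-- The ping-pong argument. -/
def PP : Prop :=
  ∀ (G X : Type) [Group G] [TopologicalSpace X] [T2Space X] [MulAction G X]
    [ContinuousConstSMul G X], (∃ a b c : X, a ≠ b ∧ a ≠ c ∧ b ≠ c) →
    (∀ U V : Set X, IsOpen U → U.Nonempty → IsOpen V → V.Nonempty →
      ∃ g : G, ∀ p : X, p ∉ V → g • p ∈ U) →
    (∀ (g : G) (V : Set X), IsOpen V → V.Nonempty → (∀ p ∈ V, g • p = p) → ∀ p : X, g • p = p) →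
    ∀ l : List (G ⊕ Fin 2 × Bool), ct l ≠ 1 → ∃ (x : Fin 2 → G) (p : X), ev x l • p ≠ p

/-- The potential argument for separating actions. -/
def Sep : Prop :=
  ∀ (G : Type) [Group G] (l : List (G ⊕ Fin 2 × Bool)), ct l ≠ 1 → ∃ N : ℕ,
    ∀ (X : Type) [MulAction G X], Nonempty X →
      (∀ Y : Finset X, Y.card ≤ N → ∀ q : X, q ∉ Y → ∃ g : G, (∀ y ∈ Y, g • y = y) ∧ g • q ≠ q) →
      ∃ (x : Fin 2 → G) (p : X), ev x l • p ≠ p

end Pool.Agent.MP_84d951_al
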